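import Mathlib
import Pool.Agent.N988.FP.Main

/-!
# Monotone functions with a large total influence: the iterated Fano plane

Author: helper988.
-/

open Pool.Agent.N988.FP

namespace Pool.Agent.Results.MP_405cad_co.IteratedFanoPlane

/-- The iterated function `F k` of the Fano plane is monotone, has sensitivity at most `3 ^ k` and
total influence `(63 / 32) ^ k`; so there are monotone Boolean functions `f` with arbitrarily large
sensitivity `s (f)` and total influence at least `s (f) ^ c`, `c = log (63 / 32) / log 3 > 0.6165`. -/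
theorem result : (6165 : ℝ) / 10000 < Real.log (63 / 32) / Real.log 3 ∧
    (∀ k : ℕ, Monotone (F k) ∧ maxSens (F k) ≤ 3 ^ k ∧ totInf (F k) = (63 / 32) ^ k) ∧
    ∀ S : ℕ, ∃ k : ℕ, S ≤ maxSens (F k) ∧
      (maxSens (F k) : ℝ) ^ (Real.log (63 / 32) / Real.log 3) ≤ totInf (F k) :=
  main

end Pool.Agent.Results.MP_405cad_co.IteratedFanoPlane
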